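import Pool.Agent.W646.CI.Stm

/-! The size of the logarithm of the primary factor. -/

set_option autoImplicit false

namespace Pool.Agent.W202.CI.Epb

open Pool.Agent.W646.CI
open Set

theorem pl_log (p : ℕ) (z : ℂ) (hz : z ≠ 1) : Real.log ‖MinMod.Ep p z‖ =
    Real.log ‖1 - z‖ + (∑ k ∈ Finset.range p, z ^ (k + 1) / ((k : ℂ) + 1)).re := by
  unfold MinMod.Ep
  rw [norm_mul, Complex.norm_exp, Real.log_mul
    (norm_ne_zero_iff.mpr (sub_ne_zero.mpr (Ne.symm hz))) (Real.exp_pos _).ne', Real.log_exp]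

theorem norm_nat1 (k : ℕ) : ‖((k : ℂ) + 1)‖ = (k : ℝ) + 1 := by
  have : ((k : ℂ) + 1) = (((k + 1 : ℕ)) : ℂ) := by push_cast; ring
  rw [this, Complex.norm_natCast]; push_cast; ring

theorem big (p : ℕ) (u : ℂ) (hu : u ≠ 1) (h : 1 ≤ ‖u‖) :
    |Real.log ‖MinMod.Ep p u‖| ≤ (p + 2) * ‖u‖ ^ (p + 1) + 1 / ‖1 - u‖ := by
  have h0 : 0 < ‖1 - u‖ := norm_pos_iff.2 (sub_ne_zero.2 hu.symm)
  have h1 : |Real.log ‖1 - u‖| ≤ ‖1 - u‖ + 1 / ‖1 - u‖ := by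
    have a1 := Real.log_le_sub_one_of_pos h0
    have a2 := Real.log_le_sub_one_of_pos (inv_pos.2 h0)
    rw [Real.log_inv] at a2
    have a3 : 0 < ‖1 - u‖⁻¹ := inv_pos.2 h0
    rw [one_div, abs_le]
    constructor <;> linarith
  have h2 : ‖1 - u‖ ≤ 2 * ‖u‖ := by
    have := norm_sub_le (1 : ℂ) u
    rw [norm_one] at this
    linarith
  have h3 : |(∑ k ∈ Finset.range p, u ^ (k + 1) / ((k : ℂ) + 1)).re| ≤ p * ‖u‖ ^ (p + 1) := by
    calc |(∑ k ∈ Finset.range p, u ^ (k + 1) / ((k : ℂ) + 1)).re|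
        ≤ ‖∑ k ∈ Finset.range p, u ^ (k + 1) / ((k : ℂ) + 1)‖ := Complex.abs_re_le_norm _
      _ ≤ ∑ k ∈ Finset.range p, ‖u ^ (k + 1) / ((k : ℂ) + 1)‖ := norm_sum_le _ _
      _ ≤ ∑ k ∈ Finset.range p, ‖u‖ ^ (p + 1) := by
          refine Finset.sum_le_sum fun k hk => ?_
          rw [norm_div, norm_pow, norm_nat1]
          have b1 : ‖u‖ ^ (k + 1) / ((k : ℝ) + 1) ≤ ‖u‖ ^ (k + 1) := by
            apply div_le_self (by positivity)
            have : (0 : ℝ) ≤ k := by positivity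
            linarith
          refine b1.trans (pow_le_pow_right₀ h ?_)
          have := Finset.mem_range.1 hk
          omega
      _ = p * ‖u‖ ^ (p + 1) := by simp
  have h4 : ‖u‖ ≤ ‖u‖ ^ (p + 1) := le_self_pow₀ h (by omega)
  rw [pl_log p u hu]
  refine (abs_add_le _ _).trans ?_
  linarith

/-- the logarithm of the primary factor along a ray -/
noncomputable def F (p : ℕ) (u : ℂ) (x : ℝ) : ℂ :=
  Complex.log (1 - (x : ℂ) * u) +
    ∑ k ∈ Finset.range p, ((x : ℂ) * u) ^ (k + 1) / ((k : ℂ) + 1)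

theorem re_pos {w : ℂ} (h : ‖w‖ ≤ 1) (hw : w ≠ 1) : 0 < (1 - w).re := by
  rw [Complex.sub_re, Complex.one_re]
  have h1 := Complex.re_le_norm w
  by_contra h2
  have h3 : w.re = 1 := by linarith
  have h4 : w.re ^ 2 + w.im ^ 2 ≤ 1 := by
    have := Complex.sq_norm w
    rw [Complex.normSq_apply] at this
    have h5 : ‖w‖ ^ 2 ≤ 1 := pow_le_one₀ (norm_nonneg _) h
    nlinarith
  have h5 : w.im = 0 := by
    rw [h3] at h4
    have : w.im ^ 2 ≤ 0 := by linarith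
    exact pow_eq_zero_iff (two_ne_zero) |>.1 (le_antisymm this (sq_nonneg _))
  exact hw (Complex.ext h3 h5)

theorem ne_one {u : ℂ} (h : ‖u‖ ≤ 1) (hu : u ≠ 1) {x : ℝ} (hx0 : 0 ≤ x) (hx1 : x ≤ 1) :
    (x : ℂ) * u ≠ 1 := by
  intro h1
  have h2 : x * ‖u‖ = 1 := by
    have := congrArg norm h1
    rwa [norm_mul, norm_one, Complex.norm_real, Real.norm_of_nonneg hx0] at this
  have h3 : x = 1 := by nlinarith [norm_nonneg u]
  rw [h3, Complex.ofReal_one, one_mul] at h1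
  exact hu h1

theorem norm_xu {u : ℂ} (h : ‖u‖ ≤ 1) {x : ℝ} (hx0 : 0 ≤ x) (hx1 : x ≤ 1) :
    ‖(x : ℂ) * u‖ ≤ 1 := by
  rw [norm_mul, Complex.norm_real, Real.norm_of_nonneg hx0]
  nlinarith [norm_nonneg u]

theorem hasDeriv {p : ℕ} {u : ℂ} (h : ‖u‖ ≤ 1) (hu : u ≠ 1) {x : ℝ} (hx0 : 0 ≤ x) (hx1 : x ≤ 1) :
    HasDerivAt (F p u) (-(u * ((x : ℂ) * u) ^ p) / (1 - (x : ℂ) * u)) x := by
  have hne := ne_one h hu hx0 hx1
  have hpos := re_pos (norm_xu h hx0 hx1) hne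
  have hlin : HasDerivAt (fun y : ℝ => (y : ℂ) * u) u x := by
    have := (Complex.ofRealCLM.hasDerivAt (x := x)).mul_const u
    simpa using this
  have h1 : HasDerivAt (fun y : ℝ => Complex.log (1 - (y : ℂ) * u)) (-u / (1 - (x : ℂ) * u)) x := by
    have := (hlin.const_sub 1).clog_real (Or.inl hpos)
    exact this
  have h2 : HasDerivAt (fun y : ℝ => ∑ k ∈ Finset.range p, ((y : ℂ) * u) ^ (k + 1) / ((k : ℂ) + 1))
      (∑ k ∈ Finset.range p, ((x : ℂ) * u) ^ k * u) x := by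
    apply HasDerivAt.fun_sum
    intro k _
    have := (hlin.pow (k + 1)).div_const ((k : ℂ) + 1)
    have hk : ((k : ℂ) + 1) ≠ 0 := by
      rw [← norm_ne_zero_iff, norm_nat1]
      positivity
    refine this.congr_deriv ?_
    rw [Nat.add_sub_cancel]
    push_cast
    field_simp
  have h3 := h1.add h2
  refine h3.congr_deriv ?_
  have h4 : (1 - (x : ℂ) * u) ≠ 0 := sub_ne_zero.2 hne.symm
  rw [← Finset.sum_mul]
  have h5 := geom_sum_mul_neg ((x : ℂ) * u) p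
  rw [div_add' _ _ _ h4]
  congr 1
  linear_combination u * h5

theorem small (p : ℕ) (u : ℂ) (hu : u ≠ 1) (h : ‖u‖ ≤ 1) :
    |Real.log ‖MinMod.Ep p u‖| ≤ 2 * ‖u‖ ^ (p + 1) / ‖1 - u‖ := by
  have h0 : 0 < ‖1 - u‖ := norm_pos_iff.2 (sub_ne_zero.2 hu.symm)
  have hF : ‖F p u 1 - F p u 0‖ ≤ 2 * ‖u‖ ^ (p + 1) / ‖1 - u‖ := by
    refine norm_image_sub_le_of_norm_deriv_le_segment_01'
      (f' := fun x => -(u * ((x : ℂ) * u) ^ p) / (1 - (x : ℂ) * u))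
      (fun x hx => (hasDeriv h hu hx.1 hx.2).hasDerivWithinAt) ?_
    intro x hx
    have hx0 := hx.1
    have hx1 := hx.2.le
    have h1 : 0 < ‖1 - (x : ℂ) * u‖ := norm_pos_iff.2 (sub_ne_zero.2 (ne_one h hu hx0 hx1).symm)
    have h2 : ‖1 - u‖ ≤ 2 * ‖1 - (x : ℂ) * u‖ := by
      have a1 : ‖1 - u‖ ≤ ‖1 - (x : ℂ) * u‖ + (1 - x) * ‖u‖ := by
        have : 1 - u = (1 - (x : ℂ) * u) - ((1 - x : ℝ) : ℂ) * u := by push_cast; ring
        rw [this]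
        refine (norm_sub_le _ _).trans ?_
        rw [norm_mul, Complex.norm_real, Real.norm_of_nonneg (by linarith)]
      have a2 : 1 - x * ‖u‖ ≤ ‖1 - (x : ℂ) * u‖ := by
        have := norm_sub_norm_le (1 : ℂ) ((x : ℂ) * u)
        rwa [norm_one, norm_mul, Complex.norm_real, Real.norm_of_nonneg hx0] at this
      nlinarith [norm_nonneg u]
    rw [norm_div, norm_neg, norm_mul, norm_pow, norm_mul, Complex.norm_real,
      Real.norm_of_nonneg hx0, div_le_div_iff₀ h1 h0]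
    have h3 : (x * ‖u‖) ^ p ≤ ‖u‖ ^ p :=
      pow_le_pow_left₀ (by positivity) (by nlinarith [norm_nonneg u]) p
    calc ‖u‖ * (x * ‖u‖) ^ p * ‖1 - u‖ ≤ ‖u‖ * ‖u‖ ^ p * (2 * ‖1 - (x : ℂ) * u‖) := by
          gcongr
      _ = 2 * ‖u‖ ^ (p + 1) * ‖1 - (x : ℂ) * u‖ := by ring
  have h1 : F p u 0 = 0 := by
    unfold F
    simp
  have h2 : (F p u 1).re = Real.log ‖MinMod.Ep p u‖ := by
    unfold F
    rw [pl_log p u hu, Complex.add_re, Complex.ofReal_one, one_mul, Complex.log_re]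
  rw [h1, sub_zero] at hF
  rw [← h2]
  exact (Complex.abs_re_le_norm _).trans hF

theorem epb : S_EPB := by
  intro p u hu
  have h0 : 0 < ‖1 - u‖ := norm_pos_iff.2 (sub_ne_zero.2 hu.symm)
  have hp : (0 : ℝ) ≤ p := Nat.cast_nonneg p
  have h1 : 0 < 1 / ‖1 - u‖ := one_div_pos.2 h0
  rcases le_total ‖u‖ 1 with h | h
  · refine (small p u hu h).trans ?_
    have h2 : 0 ≤ ‖u‖ ^ (p + 1) := by positivity
    have h3 : 2 * ‖u‖ ^ (p + 1) / ‖1 - u‖ = 2 * (‖u‖ ^ (p + 1) * (1 / ‖1 - u‖)) := by ring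
    have h4 : 3 * ((p : ℝ) + 2) * ‖u‖ ^ (p + 1) * (1 + 1 / ‖1 - u‖) =
        3 * (p + 2) * ‖u‖ ^ (p + 1) + 3 * (p + 2) * (‖u‖ ^ (p + 1) * (1 / ‖1 - u‖)) := by ring
    have h5 : 0 ≤ ‖u‖ ^ (p + 1) * (1 / ‖1 - u‖) := by positivity
    have h6 : 0 ≤ 3 * ((p : ℝ) + 2) * ‖u‖ ^ (p + 1) := by positivity
    rw [h3, h4]
    nlinarith
  · refine (big p u hu h).trans ?_
    have h2 : 1 ≤ ‖u‖ ^ (p + 1) := one_le_pow₀ h
    have h4 : 3 * ((p : ℝ) + 2) * ‖u‖ ^ (p + 1) * (1 + 1 / ‖1 - u‖) =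
        3 * (p + 2) * ‖u‖ ^ (p + 1) + 3 * (p + 2) * (‖u‖ ^ (p + 1) * (1 / ‖1 - u‖)) := by ring
    have h5 : 1 / ‖1 - u‖ ≤ ‖u‖ ^ (p + 1) * (1 / ‖1 - u‖) := by nlinarith
    have h6 : 0 ≤ ((p : ℝ) + 2) * ‖u‖ ^ (p + 1) := by positivity
    have h7 : 0 ≤ ‖u‖ ^ (p + 1) * (1 / ‖1 - u‖) := by positivity
    rw [h4]
    nlinarith

end Pool.Agent.W202.CI.Epb
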