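import Pool.Agent.W809.CI.Stm

/-! Project CI: bounds for the colours. -/

set_option autoImplicit false

open Set Filter Topology

namespace Pool.Agent.W202.CI.BkB

open Pool.Agent.W809.CI

/-- the entry of the vector `Ev` -/
noncomputable def z (l : ℕ) (ρ : ℝ) : ℂ :=
  Complex.exp ((Real.pi * ρ * Real.exp (-(l:ℝ)) : ℝ) * Complex.I)

theorem norm_z (l : ℕ) (ρ : ℝ) : ‖z l ρ‖ = 1 := Complex.norm_exp_ofReal_mul_I _

theorem ev_even {l : ℕ} (h : Even l) (ρ : ℝ) : Ev l ρ = (z l ρ, 0) := by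
  unfold Ev; rw [if_pos h]; rfl

theorem ev_odd {l : ℕ} (h : ¬ Even l) (ρ : ℝ) : Ev l ρ = (0, z l ρ) := by
  unfold Ev; rw [if_neg h]; rfl

theorem norm_comb (m : ℕ) (ρ a b : ℝ) : ‖a • Ev m ρ + b • Ev (m + 1) ρ‖ = max |a| |b| := by
  by_cases h : Even m
  · rw [ev_even h, ev_odd (by rw [Nat.even_add_one]; simpa using h)]
    simp [Prod.norm_def, norm_z]
  · rw [ev_odd h, ev_even (by rw [Nat.even_add_one]; simpa using h)]
    simp [Prod.norm_def, norm_z, max_comm]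

theorem bk_eq {m : ℕ} {s : ℝ} (h1 : (m : ℝ) ≤ s) (h2 : s ≤ m + 1) (ρ : ℝ) :
    Bk s ρ = (1 - (s - m)) • Ev m ρ + (s - m) • Ev (m + 1) ρ := by
  have h0 : 0 ≤ s := (Nat.cast_nonneg m).trans h1
  rcases h2.lt_or_eq with h | h
  · have : ⌊s⌋₊ = m := (Nat.floor_eq_iff h0).2 ⟨h1, h⟩
    unfold Bk
    rw [this]
  · have : ⌊s⌋₊ = m + 1 := by
      rw [Nat.floor_eq_iff h0, h]
      push_cast
      exact ⟨le_rfl, by linarith⟩
    unfold Bk
    rw [this, h]
    push_cast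
    simp

theorem local_lip {m : ℕ} {s s' : ℝ} (h1 : (m : ℝ) ≤ s) (h2 : s ≤ m + 1) (h1' : (m : ℝ) ≤ s')
    (h2' : s' ≤ m + 1) (ρ : ℝ) : ‖Bk s ρ - Bk s' ρ‖ ≤ |s - s'| := by
  rw [bk_eq h1 h2, bk_eq h1' h2']
  have : (1 - (s - m)) • Ev m ρ + (s - m) • Ev (m + 1) ρ -
      ((1 - (s' - m)) • Ev m ρ + (s' - m) • Ev (m + 1) ρ) =
      (s' - s) • Ev m ρ + (s - s') • Ev (m + 1) ρ := by
    module
  rw [this, norm_comb, abs_sub_comm s' s, max_self]

theorem lip_le (ρ : ℝ) (n : ℕ) : ∀ s s' : ℝ, 0 ≤ s → s ≤ s' → s' ≤ n →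
    ‖Bk s ρ - Bk s' ρ‖ ≤ s' - s := by
  induction n with
  | zero =>
    intro s s' h1 h2 h3
    have h4 : s = 0 := by
      have : s' ≤ 0 := by simpa using h3
      linarith
    have h5 : s' = 0 := by
      have : s' ≤ 0 := by simpa using h3
      linarith
    rw [h4, h5]
    simp
  | succ n ih =>
    intro s s' h1 h2 h3
    push_cast at h3
    rcases le_or_gt s' (n : ℝ) with h | h
    · exact ih s s' h1 h2 h
    · rcases le_or_gt (n : ℝ) s with h' | h'
      · have := local_lip h' (h2.trans h3) h.le h3 ρ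
        rwa [abs_sub_comm, abs_of_nonneg (by linarith)] at this
      · have a1 := ih s n h1 h'.le le_rfl
        have a2 := local_lip (m := n) le_rfl (by linarith) h.le h3 ρ
        rw [abs_sub_comm, abs_of_nonneg (by linarith)] at a2
        calc ‖Bk s ρ - Bk s' ρ‖ = ‖(Bk s ρ - Bk n ρ) + (Bk n ρ - Bk s' ρ)‖ := by
              rw [sub_add_sub_cancel]
          _ ≤ ‖Bk s ρ - Bk n ρ‖ + ‖Bk n ρ - Bk s' ρ‖ := norm_add_le _ _
          _ ≤ s' - s := by linarith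

theorem ev_lip (l : ℕ) (ρ ρ' : ℝ) :
    ‖Ev l ρ - Ev l ρ'‖ ≤ Real.pi * Real.exp (-(l : ℝ)) * |ρ - ρ'| := by
  have h1 : ‖Ev l ρ - Ev l ρ'‖ = ‖z l ρ - z l ρ'‖ := by
    by_cases h : Even l
    · rw [ev_even h, ev_even h]
      simp [Prod.norm_def]
    · rw [ev_odd h, ev_odd h]
      simp [Prod.norm_def]
  rw [h1]
  set a : ℝ := Real.pi * ρ * Real.exp (-(l:ℝ)) with ha
  set b : ℝ := Real.pi * ρ' * Real.exp (-(l:ℝ)) with hb
  have h2 : z l ρ - z l ρ' = Complex.exp (b * Complex.I) *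
      (Complex.exp (Complex.I * ((a - b : ℝ) : ℂ)) - 1) := by
    unfold z
    rw [← ha, ← hb, mul_sub, ← Complex.exp_add, mul_one]
    congr 2
    push_cast
    ring
  rw [h2, norm_mul, Complex.norm_exp_ofReal_mul_I, one_mul]
  refine (Real.norm_exp_I_mul_ofReal_sub_one_le).trans (le_of_eq ?_)
  rw [Real.norm_eq_abs, ha, hb]
  have : Real.pi * ρ * Real.exp (-(l:ℝ)) - Real.pi * ρ' * Real.exp (-(l:ℝ)) =
      Real.pi * Real.exp (-(l : ℝ)) * (ρ - ρ') := by ring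
  rw [this, abs_mul, abs_of_pos (mul_pos Real.pi_pos (Real.exp_pos _))]

theorem bk : S_BK := by
  refine ⟨?_, ?_, ?_⟩
  · intro s s' ρ h h'
    obtain ⟨n, hn⟩ := exists_nat_ge (max s s')
    rcases le_total s s' with h1 | h1
    · rw [abs_sub_comm, abs_of_nonneg (by linarith)]
      exact lip_le ρ n s s' h h1 ((le_max_right _ _).trans hn)
    · rw [abs_of_nonneg (by linarith), norm_sub_rev]
      exact lip_le ρ n s' s h' h1 ((le_max_left _ _).trans hn)
  · intro s ρ ρ' h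
    set m := ⌊s⌋₊ with hm
    have h1 : (m : ℝ) ≤ s := Nat.floor_le h
    have h2 : s < m + 1 := Nat.lt_floor_add_one s
    have h3 : Bk s ρ - Bk s ρ' = (1 - (s - m)) • (Ev m ρ - Ev m ρ') +
        (s - m) • (Ev (m + 1) ρ - Ev (m + 1) ρ') := by
      unfold Bk
      rw [← hm]
      module
    have h4 := ev_lip m ρ ρ'
    have h5 := ev_lip (m + 1) ρ ρ'
    have h6 : Real.exp (-((m + 1 : ℕ) : ℝ)) ≤ Real.exp (-(m : ℝ)) := by
      apply Real.exp_le_exp.2
      push_cast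
      linarith
    have h7 : Real.exp (-(m : ℝ)) ≤ Real.exp (1 - s) := Real.exp_le_exp.2 (by linarith)
    have h8 : Real.pi * Real.exp (-(m : ℝ)) * |ρ - ρ'| ≤ Real.pi * Real.exp (1 - s) * |ρ - ρ'| := by
      gcongr
    have h9 : Real.pi * Real.exp (-((m + 1 : ℕ) : ℝ)) * |ρ - ρ'| ≤
        Real.pi * Real.exp (1 - s) * |ρ - ρ'| := by
      refine le_trans ?_ h8
      gcongr
    rw [h3]
    refine (norm_add_le _ _).trans ?_
    rw [norm_smul, norm_smul, Real.norm_eq_abs, Real.norm_eq_abs,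
      abs_of_nonneg (by linarith : (0 : ℝ) ≤ 1 - (s - m)),
      abs_of_nonneg (by linarith : (0 : ℝ) ≤ s - m)]
    have h10 := mul_le_mul_of_nonneg_left (h4.trans h8) (by linarith : (0 : ℝ) ≤ 1 - (s - m))
    have h11 := mul_le_mul_of_nonneg_left (h5.trans h9) (by linarith : (0 : ℝ) ≤ s - m)
    linarith
  · intro s ρ h
    set m := ⌊s⌋₊ with hm
    have h1 : (m : ℝ) ≤ s := Nat.floor_le h
    have h2 : s < m + 1 := Nat.lt_floor_add_one s
    rw [bk_eq h1 h2.le, norm_comb, abs_of_nonneg (by linarith : (0 : ℝ) ≤ 1 - (s - m)),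
      abs_of_nonneg (by linarith : (0 : ℝ) ≤ s - m)]
    constructor
    · rcases le_total (1 / 2) (s - m) with h3 | h3
      · exact le_max_of_le_right h3
      · exact le_max_of_le_left (by linarith)
    · exact max_le (by linarith) (by linarith)

end Pool.Agent.W202.CI.BkB
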