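import Pool.Agent.W809.CI.Stm

/-! Project CI: algebraic properties of the homotopy of twisted paths. -/

set_option autoImplicit false

open Set Filter Topology

namespace Pool.Agent.W202.CI.Hop

open Pool.Agent.W809.CI

theorem tw_iter (h : S_PT) {p : ℕ} {x : ℝ → Pt} (hx : Tw p x) (m : ℤ) :
    ∀ t : ℝ, x (t + p * m) = beta (p * m) (x t) := by
  obtain ⟨-, -, hB, h0, -⟩ := h
  induction m using Int.induction_on with
  | zero =>
    intro t
    simp only [Int.cast_zero, mul_zero, add_zero]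
    rw [h0]
  | succ n ih =>
    intro t
    have h1 := hx (t + p * ((n : ℤ) : ℝ))
    rw [ih t, hB] at h1
    have h2 : t + (p : ℝ) * (((n : ℤ) + 1 : ℤ) : ℝ) = t + p * ((n : ℤ) : ℝ) + p := by
      push_cast; ring
    have h3 : (p : ℤ) * ((n : ℤ) + 1) = (p : ℤ) + p * (n : ℤ) := by ring
    rw [h2, h1, h3]
  | pred n ih =>
    intro t
    have h1 := hx (t + p * ((-(n : ℤ) - 1 : ℤ) : ℝ))
    have h2 : t + (p : ℝ) * ((-(n : ℤ) - 1 : ℤ) : ℝ) + p = t + p * ((-(n : ℤ) : ℤ) : ℝ) := by
      push_cast; ring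
    rw [h2, ih t] at h1
    have h3 := congrArg (beta (-(p : ℤ))) h1
    rw [hB, hB, neg_add_cancel, h0] at h3
    rw [← h3]
    congr 1
    ring

theorem hop : S_PT → S_HOP := by
  intro h p W hp hW hpW
  have hh := h
  obtain ⟨-, -, hB, h0, hr0, hr1, -⟩ := h
  have hpR : (0 : ℝ) < p := by exact_mod_cast hp
  refine ⟨?_, ?_, ?_, ?_⟩
  · intro lam x t
    unfold Hop
    have h1 : (t + p) / (p : ℝ) = t / p + 1 := by
      field_simp
    have h2 : ⌊(t + p) / (p : ℝ)⌋ = ⌊t / (p : ℝ)⌋ + 1 := by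
      rw [h1, Int.floor_add_one]
    rw [h2, hB]
    have h3 : t + (p : ℝ) - p * ((⌊t / (p : ℝ)⌋ + 1 : ℤ) : ℝ) = t - p * (⌊t / (p : ℝ)⌋ : ℝ) := by
      push_cast; ring
    have h4 : (p : ℤ) * (⌊t / (p : ℝ)⌋ + 1) = (p : ℤ) + p * ⌊t / (p : ℝ)⌋ := by ring
    rw [h3, h4]
  · intro x hx
    funext t
    unfold Hop
    set m := ⌊t / (p : ℝ)⌋ with hm
    have h1 : (m : ℝ) ≤ t / p := Int.floor_le _
    have h2 : (t / p : ℝ) < m + 1 := Int.lt_floor_add_one _
    rw [le_div_iff₀ hpR] at h1
    rw [div_lt_iff₀ hpR] at h2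
    have h3 : 0 ≤ t - p * (m : ℝ) := by linarith
    have h4 : fop p W 0 x (t - p * (m : ℝ)) = x (t - p * (m : ℝ)) := by
      generalize t - p * (m : ℝ) = t0 at h3
      have hmu : muf 0 = 0 := by unfold muf; norm_num
      have hT : Tf p 0 = 0 := by unfold Tf; norm_num
      have hnu : nuf 0 = 0 := by unfold nuf; norm_num
      unfold fop
      rw [hmu, hT, hnu]
      rcases h3.eq_or_lt with h5 | h5
      · rw [if_pos (by rw [← h5]; simp), ← h5]
        simp only [zero_div, max_self]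
        rw [hr0 _ _ le_rfl]
      · rw [if_neg (by simpa using h5), if_neg (by simpa using h5)]
        rw [hr0 _ _ le_rfl, hB, add_neg_cancel, h0]
        congr 1
        have h6 : (p : ℝ) ≠ 0 := hpR.ne'
        simp only [mul_zero, zero_mul, sub_zero, zero_add]
        rw [mul_div_assoc, div_self h6, mul_one]
    rw [h4, ← tw_iter hh hx m]
    congr 1
    ring
  · intro x x'
    funext t
    unfold Hop
    congr 1
    have hmu : muf 3 = 1 := by unfold muf; norm_num
    have hnu : nuf 3 = 1 := by unfold nuf; norm_num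
    unfold fop
    rw [hmu, hnu, hr1 _ (x 0) (le_max_left _ _), hr1 _ (x' 0) (le_max_left _ _)]
    simp only [hr1 (1 : ℝ) _ le_rfl]
  · intro lam x hx
    have hmu0 : 0 ≤ muf lam := le_max_left _ _
    have hmu1 : muf lam ≤ 1 := max_le zero_le_one (min_le_left _ _)
    have hnu0 : 0 ≤ nuf lam := le_max_left _ _
    have h1 : 2 * muf lam * W < p := by nlinarith
    have h2 : muf lam * W < p := by nlinarith
    unfold fop
    rw [if_neg (not_le.2 h2), if_neg (not_le.2 h1), if_pos (by positivity), zero_div,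
      max_eq_left hnu0]
    have h3 : Tf p lam + ((p : ℝ) - 2 * muf lam * W) * (p - Tf p lam) / (p - 2 * muf lam * W) =
        0 + p := by
      have : (p : ℝ) - 2 * muf lam * W ≠ 0 := by linarith
      field_simp
      ring
    rw [h3, hx 0, hB, neg_add_cancel, h0]

end Pool.Agent.W202.CI.Hop
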